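import Pool.Agent.H784777.Proofs

set_option autoImplicit false

open Complex Metric Set Filter Topology InnerProductSpace Real

namespace Pool.Agent.Results.MP_784777_an.Main

open Pool.Agent.H784777

/-- The spectral criterion fails in every class `U[ρ]`, `ρ > 0`: not every `v ∈ U[ρ]` satisfies
(`v` minimal iff `λ(v) ≤ ρ`). More precisely, for every real harmonic function `g` on the plane
with `g 0 = 0` and `g z ≤ σ |z| ^ ρ` (for example `g = 0`, or `g z = Re z ^ N` if `ρ = N`), the
function `v z = g z + (|z| ^ ρ - 1)⁺` is a minimal element of `U[ρ]`, its harmonicity set `H(v)`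
is the open unit disc, and `λ(v) = +∞`. -/
theorem result :
    (∀ ρ : ℝ, 0 < ρ →
      ¬ ∀ v : ℂ → EReal, IsU ρ v → (IsMinimal ρ v ↔ lambdaFun v ≤ (ρ : EReal))) ∧
    (∀ (ρ σ : ℝ) (g : ℂ → ℝ), 0 < ρ → HarmonicOnNhd g univ → g 0 = 0 →
      (∀ z, g z ≤ σ * ‖z‖ ^ ρ) →
      IsMinimal ρ (fun z => ((g z + bump ρ z : ℝ) : EReal)) ∧
      HarmSet (fun z => ((g z + bump ρ z : ℝ) : EReal)) = ball 0 1 ∧
      lambdaFun (fun z => ((g z + bump ρ z : ℝ) : EReal)) = ⊤) := by
  constructor
  · intro ρ hρ hall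
    have h0 : HarmonicOnNhd (fun _ : ℂ => (0:ℝ)) univ := harmonicOnNhd_const 0
    have hU := isU_example hρ h0 rfl (σ := 0) (fun z => by simp)
    have hM := minimal_example hρ h0 rfl (σ := 0) (fun z => by simp)
    have hL := lambda_example hρ h0
    have := (hall _ hU).mp hM
    rw [hL, top_le_iff] at this
    exact EReal.coe_ne_top ρ this
  · intro ρ σ g hρ hg hg0 hσ
    exact ⟨minimal_example hρ hg hg0 hσ, harmSet_example hρ hg, lambda_example hρ hg⟩

end Pool.Agent.Results.MP_784777_an.Main
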